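import Pool.Agent.Lib.MP_35885f_lg.GIR
import Pool.Agent.Lib.MP_35885f_lg.WB
import Pool.Agent.Lib.MP_35885f_lg.WBG
import Pool.Agent.Lib.MP_35885f_lg.MMX
import Pool.Agent.Lib.MP_35885f_lg.SWPW
import Pool.Agent.Lib.MP_35885f_lg.EXC
import Pool.Agent.Lib.MP_35885f_lg.BDC
import Pool.Agent.Lib.MP_35885f_lg.BDE
import Pool.Agent.Lib.MP_35885f_lg.BDS
import Pool.Agent.Lib.MP_35885f_lg.BDT
import Pool.Agent.Lib.MP_35885f_lg.WBT
import Pool.Agent.Lib.MP_35885f_lg.TFR2

/-!
Problem MP_35885f_co, Q1 (is the basis number at most linear in the treewidth?): for every finite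
graph `G` and `24 (tw(G) + 1) ≤ 2 ^ κ` there is a random cycle basis `B` of `G` such that
`2 ^ ply e B` has expectation at most `2 ^ (12 κ)` at every edge `e`.  So the ply of a given edge is
`O(log tw(G))` in expectation and at least `12 κ + s` with probability at most `2 ^ (-s)`: the
fractional relaxation of the linear bound holds with `O(log tw)` instead of `c tw`, and some cycle
basis has ply at most `12 κ + s` at all but a `2 ^ (-s)` part of the edges.  There is no condition on
the number of vertices.  The definitions are in `Pool/Agent/Lib/MP_35885f_co/Defs.lean`.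
-/

namespace Pool.Agent.Results.MP_35885f_co.FractionalTreewidth

open Pool.MP_35885f

open scoped Classical

/-- Random cycle bases of graphs of bounded treewidth. -/
theorem result : ∀ (V : Type) [Fintype V] (G : SimpleGraph V) (κ : ℕ),
    24 * (treewidth G + 1) ≤ 2 ^ κ →
      ∃ p : Finset (Sym2 V → ZMod 2) → ℝ, (∀ B, 0 ≤ p B) ∧ (∀ B, p B ≠ 0 → IsCycleBasis G B) ∧
        ∑ B, p B = 1 ∧ ∀ e ∈ G.edgeSet, ∑ B, p B * 2 ^ ply e B ≤ 2 ^ (12 * κ) :=
  fun V _ G κ hκ => LG.tfr2 (LG.wbt LG.gir (LG.cnt (LG.wb LG.gir)) LG.bde LG.bdc LG.bds) LG.bdt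
    LG.mmx LG.swpw LG.exc V G κ hκ

end Pool.Agent.Results.MP_35885f_co.FractionalTreewidth
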