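import Pool.Agent.Lib.MP_35885f_lg.GIR
import Pool.Agent.Lib.MP_35885f_lg.WB
import Pool.Agent.Lib.MP_35885f_lg.WBG
import Pool.Agent.Lib.MP_35885f_lg.MMX
import Pool.Agent.Lib.MP_35885f_lg.SWP
import Pool.Agent.Lib.MP_35885f_lg.EXC
import Pool.Agent.Lib.MP_35885f_lg.FIN

/-!
Problem MP_35885f_co, Q1 (is the basis number at most linear in the treewidth?): the basis number
of every finite graph with at most `2 ^ k` vertices is at most `5 k`, so `bn(G) ≤ 5 ⌈log₂ n⌉` (the
problem file lists the bound `O(log² n)` of Freedman and Hastings).  With `k = tw(G)`: the linear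
bound of Q1 holds, with constant `5`, for all graphs with at most `2 ^ tw(G)` vertices.  The
definitions are in `Pool/Agent/Lib/MP_35885f_co/Defs.lean`.
-/

namespace Pool.Agent.Results.MP_35885f_co.LogBound

open Pool.MP_35885f

/-- A graph with at most `2 ^ k` vertices has basis number at most `5 k`. -/
theorem result : ∀ (V : Type) [Fintype V] (G : SimpleGraph V) (k : ℕ),
    Fintype.card V ≤ 2 ^ k → basisNumber G ≤ 5 * k :=
  fun V _ G _ hk => (LG.fin (LG.wbg (LG.wb LG.gir)) LG.mmx LG.swp LG.exc V G).trans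
    (Nat.mul_le_mul_left 5 ((Nat.clog_le_iff_le_pow Nat.one_lt_two).2 hk))

end Pool.Agent.Results.MP_35885f_co.LogBound
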