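import Pool.Agent.Lib.MP_35885f_tl.EMR
import Pool.Agent.Lib.MP_35885f_tl.TWM
import Pool.Agent.Lib.MP_35885f_tl.FOR
import Pool.Agent.Lib.MP_35885f_tl.REP
import Pool.Agent.Lib.MP_35885f_tl.GLUE
import Pool.Agent.Lib.MP_35885f_tl.ROOT
import Pool.Agent.Lib.MP_35885f_tl.TOPS
import Pool.Agent.Lib.MP_35885f_tl.CHN
import Pool.Agent.Lib.MP_35885f_tl.PD
import Pool.Agent.Lib.MP_35885f_tl.BDY
import Pool.Agent.Lib.MP_35885f_tl.FIN

/-!
Problem MP_35885f_co, Q1 (is the basis number at most linear in the treewidth?): if a graph `G` has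
a tree decomposition with bags of at most `k + 1` vertices, `k ≥ 1`, whose tree has at most `L`
leaves (nodes with at most one neighbour), then `bn(G) ≤ 80 k + log₂ L`.  So the linear bound of Q1
holds, with constant `81`, for all graphs, with any number of vertices, which have a tree
decomposition of width `k` whose tree has at most `2 ^ k` leaves.  The definitions are in
`Pool/Agent/Lib/MP_35885f_co/Defs.lean`.
-/

namespace Pool.Agent.Results.MP_35885f_co.TreeLeaves

open Pool.MP_35885f

/-- The basis number is at most `80 k + log₂ L` if `G` has a tree decomposition of width at most `k`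
whose tree has at most `L` leaves. -/
theorem result : ∀ (V : Type) [Fintype V] (G : SimpleGraph V) (D : TreeDecomp G) (k L : ℕ), 1 ≤ k →
    (∀ x, (D.bag x).card ≤ k + 1) →
    {x : D.ι | ∀ y z, D.T.Adj x y → D.T.Adj x z → y = z}.ncard ≤ L →
    basisNumber G ≤ 80 * k + Nat.log 2 L :=
  TL.fin TL.emr TL.twm TL.for_ TL.rep TL.glue TL.root TL.tops TL.chn TL.pd TL.bdy_

end Pool.Agent.Results.MP_35885f_co.TreeLeaves
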