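import Pool.Agent.Lib.MP_35885f_co.Final

/-!
Problem MP_35885f_co, Q1 (is the basis number at most linear in the treewidth?): the basis number
of every finite graph of treewidth `k` is at most `16 (k+1)^3`.  The definitions are in
`Pool/Agent/Lib/MP_35885f_co/Defs.lean`.
-/

namespace Pool.Agent.Results.MP_35885f_co.TreewidthCubic

open Pool.MP_35885f

/-- The basis number is at most cubic in the treewidth. -/
theorem result : ∀ (V : Type) [Fintype V] (G : SimpleGraph V),
    basisNumber G ≤ 16 * (treewidth G + 1) ^ 3 :=
  fun _ _ G => basisNumber_le G

end Pool.Agent.Results.MP_35885f_co.TreewidthCubic
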